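import Mathlib

/-!
# Étale homology of varieties and Jannsen's conjecture: definitions
-/

set_option autoImplicit false

namespace Pool.Agent.R937.JS

/-- The étale homology of the varieties over a finitely generated field `k`:

* `V` is the set of (isomorphism classes of) varieties over `k`, that is, of separated schemes of finite
  type over `k`, and `G` is the absolute Galois group of `k`;
* `H X i` is the vector space `H_{2i}(X̄, ℚ_ℓ(i)) ⊗ Ω`, with the action `act` of `G`, where the field
  `Ω` is an extension of `ℚ_ℓ`;
* `Z X i` is the set of the integral closed subvarieties of dimension `i` of `X`, and `cl z` is the class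
  of `z`;
* `dimLE D i` means that the dimension of `D` is at most `i`;
* `projective P` means that `P` is smooth and projective over `k`, and `smooth U` that `U` is smooth and
  quasi-projective over `k`. -/
structure Homology (Ω : Type) [Field Ω] where
  V : Type
  G : Type
  [group : Group G]
  H : V → ℕ → Type
  [addCommGroup : ∀ X i, AddCommGroup (H X i)]
  [module : ∀ X i, Module Ω (H X i)]
  act : ∀ X i, G → H X i → H X i
  Z : V → ℕ → Type
  cl : ∀ X i, Z X i → H X i
  dimLE : V → ℕ → Prop
  projective : V → Prop
  smooth : V → Prop

attribute [instance] Homology.group Homology.addCommGroup Homology.module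

/-- The map `f` is linear. -/
def IsLin (Ω : Type) [Field Ω] {A B : Type} [AddCommGroup A] [Module Ω A] [AddCommGroup B]
    [Module Ω B] (f : A → B) : Prop := ∃ φ : A →ₗ[Ω] B, ∀ x, f x = φ x

variable {Ω : Type} [Field Ω]

/-- The element `x` is invariant under the Galois group. -/
def IsInvariant (T : Homology Ω) {X : T.V} {i : ℕ} (x : T.H X i) : Prop := ∀ g, T.act X i g x = x

/-- The element `x` is a linear combination of classes of cycles. -/
def IsAlgebraic (T : Homology Ω) {X : T.V} {i : ℕ} (x : T.H X i) : Prop :=
  x ∈ Submodule.span Ω (Set.range (T.cl X i))

/-- The conjecture of Jannsen for the cycles of dimension `i` on the variety `X`: every class which is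
invariant under the Galois group is a linear combination of the classes of cycles. -/
def IsOnto (T : Homology Ω) (X : T.V) (i : ℕ) : Prop :=
  ∀ x : T.H X i, IsInvariant T x → IsAlgebraic T x

/-- The elements on which the Galois group acts unipotently: they form the largest subspace that is a
successive extension of trivial representations. -/
inductive IsUnipotent (T : Homology Ω) {X : T.V} {i : ℕ} : T.H X i → Prop
  | zero : IsUnipotent T 0
  | step (x : T.H X i) (h : ∀ g, IsUnipotent T (T.act X i g x - x)) : IsUnipotent T x

/-- Each element on which the Galois group acts unipotently is invariant. If `k` is a finite field this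
means that the eigenvalue one of the Frobenius endomorphism on `H_{2i}(X̄, ℚ_ℓ(i))` is semisimple. -/
def IsSemisimple (T : Homology Ω) (X : T.V) (i : ℕ) : Prop :=
  ∀ x : T.H X i, IsUnipotent T x → IsInvariant T x

/-- The map `f` is linear and compatible with the actions of the Galois group. -/
def IsEquivariant (T : Homology Ω) {X Y : T.V} {i : ℕ} (f : T.H X i → T.H Y i) : Prop :=
  IsLin Ω f ∧ ∀ g x, f (T.act X i g x) = T.act Y i g (f x)

/-- The part of the localisation sequence of a closed subvariety `D` of `X` with the complement `U` that
belongs to the cycles of dimension `i`: the push-forward `a` and the restriction `b`. It is exact and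
compatible with the actions of the Galois group, and each integral closed subvariety of `U` is the
restriction of its closure in `X`. -/
structure IsTriple (T : Homology Ω) {D X U : T.V} {i : ℕ} (a : T.H D i → T.H X i)
    (b : T.H X i → T.H U i) : Prop where
  a_equivariant : IsEquivariant T a
  b_equivariant : IsEquivariant T b
  exact : Function.Exact a b
  closure : ∀ z : T.Z U i, ∃ z' : T.Z X i, b (T.cl X i z') = T.cl U i z

/-- The union `D` of a finite set `S` of integral closed subvarieties of dimension `i` of `X` is a closed
subvariety of dimension at most `i`, and the classes of the members of `S` come from `D`; let `U` be the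
complement `X ∖ D`; if `X` is smooth and quasi-projective then `U` is also smooth and quasi-projective. -/
def HasSupports (T : Homology Ω) : Prop :=
  ∀ (X : T.V) (i : ℕ) (S : Finset (T.Z X i)), ∃ (D U : T.V) (a : T.H D i → T.H X i)
    (b : T.H X i → T.H U i), IsTriple T a b ∧ T.dimLE D i ∧ (T.smooth X → T.smooth U) ∧
      ∀ z ∈ S, T.cl X i z ∈ Set.range a

/-- The standard properties of étale homology over the field `k`:

* the groups are finite-dimensional representations of the Galois group, and the classes of subvarieties
  are invariant;
* the classes of a finite number of subvarieties of dimension `i` come from their union;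
* if the dimension of `D` is at most `i` then the Galois group acts on `H_{2i}(D̄, ℚ_ℓ(i))`, which has a
  basis that consists of the classes of the irreducible components of dimension `i` of `D̄`, through a
  finite quotient. -/
structure IsHomology (T : Homology Ω) : Prop where
  finite : ∀ X i, FiniteDimensional Ω (T.H X i)
  linear : ∀ X i g, IsLin Ω (T.act X i g)
  mul : ∀ X i g h x, T.act X i (g * h) x = T.act X i g (T.act X i h x)
  one : ∀ X i x, T.act X i 1 x = x
  invariant : ∀ X i z, IsInvariant T (T.cl X i z)
  supports : HasSupports T
  top : ∀ D i, T.dimLE D i → ∃ N : Subgroup T.G, N.FiniteIndex ∧ ∀ g ∈ N, ∀ x, T.act D i g x = x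
  smooth_of_projective : ∀ P, T.projective P → T.smooth P

/-- Let `k` be a finite field. A proper and surjective morphism `π : P' → X` where `P'` is an open
subvariety of the smooth projective variety `P` gives the map `h`: the restriction from `P` to `P'`,
followed by the push-forward. It is compatible with the Galois group and with cycles. By the theory of
weights (Deligne) the generalised eigenspace for the eigenvalue one of the Frobenius endomorphism is the
image of the generalised eigenspace: the weights of the cokernel of `h` are positive. -/
structure IsCover (T : Homology Ω) {P X : T.V} {i : ℕ} (h : T.H P i → T.H X i) : Prop where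
  equivariant : IsEquivariant T h
  cycles : ∀ z, IsAlgebraic T (h (T.cl P i z))
  onto : ∀ x, IsUnipotent T x → ∃ y, IsUnipotent T y ∧ h y = x

/-- Let `k` be a finitely generated field, the field of functions of a smooth and geometrically connected
variety `B` of dimension `e` over the finite field `k₀`, and let the variety `X` over `k` be the generic
fibre of `𝒳 → B`. The restriction `h` from `H_{2(i + e)}(𝒳̄, ℚ_ℓ(i + e))` to `H_{2i}(X̄, ℚ_ℓ(i))` is
compatible with cycles. By the spectral sequence of Leray and the theory of weights (Deligne) the
invariants of the Galois group of `k` are in the image of the generalised eigenspace for the eigenvalue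
one of the Frobenius endomorphism of `k₀` (if `B` is small enough). Here `j = i + e`. -/
structure IsModel (T₀ T : Homology Ω) {𝒳 : T₀.V} {X : T.V} {j i : ℕ} (h : T₀.H 𝒳 j → T.H X i) :
    Prop where
  linear : IsLin Ω h
  cycles : ∀ z, IsAlgebraic T (h (T₀.cl 𝒳 j z))
  onto : ∀ x, IsInvariant T x → ∃ y, IsUnipotent T₀ y ∧ h y = x

/-- The étale homology of the varieties over all finitely generated fields `k : K` of characteristic `p`,
where `finite k` means that `k` is a finite field:

* over each field the standard properties hold;
* over a finite field, each variety `X` is the image under a proper morphism of an open subvariety of a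
  smooth projective variety `P` (de Jong);
* each variety over a finitely generated field has a model over a smooth variety over a finite field. -/
structure IsFamily (K : Type) (finite : K → Prop) (T : K → Homology Ω) : Prop where
  homology : ∀ k, IsHomology (T k)
  cover : ∀ k, finite k → ∀ (X : (T k).V) (i : ℕ), ∃ (P : (T k).V) (h : (T k).H P i → (T k).H X i),
    (T k).projective P ∧ IsCover (T k) h
  model : ∀ (k : K) (X : (T k).V) (i : ℕ), ∃ (k₀ : K) (𝒳 : (T k₀).V) (j : ℕ)
    (h : (T k₀).H 𝒳 j → (T k).H X i), finite k₀ ∧ IsModel (T k₀) (T k) h

section

variable {K : Type} (finite : K → Prop) (T : K → Homology Ω)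

/-- Jannsen's conjecture for all varieties over all finitely generated fields `k : K`. -/
def Jannsen : Prop := ∀ (k : K) (X : (T k).V) (i : ℕ), IsOnto (T k) X i

/-- Jannsen's conjecture, with semisimplicity, for all varieties over all the fields `k : K`. -/
def JannsenSemisimple : Prop :=
  ∀ (k : K) (X : (T k).V) (i : ℕ), IsOnto (T k) X i ∧ IsSemisimple (T k) X i

/-- Jannsen's conjecture for all smooth quasi-projective varieties over the finite fields `k : K`. -/
def JannsenSmooth : Prop :=
  ∀ (k : K), finite k → ∀ (U : (T k).V), (T k).smooth U → ∀ i : ℕ, IsOnto (T k) U i

/-- The Tate conjecture and semisimplicity for all smooth projective varieties over the finite fields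
`k : K`. -/
def TateSemisimple : Prop :=
  ∀ (k : K), finite k → ∀ (P : (T k).V), (T k).projective P → ∀ i : ℕ,
    IsOnto (T k) P i ∧ IsSemisimple (T k) P i

end

/-- Jannsen's conjecture holds for the cycles of dimension `i` on `X` and on the complements of the closed
subvarieties `D` of dimension at most `i` of `X`. -/
def IsOntoOpen (T : Homology Ω) (X : T.V) (i : ℕ) : Prop :=
  IsOnto T X i ∧ ∀ (D U : T.V) (a : T.H D i → T.H X i) (b : T.H X i → T.H U i), IsTriple T a b →
    T.dimLE D i → (T.smooth X → T.smooth U) → IsOnto T U i

end Pool.Agent.R937.JS
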