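import Pool.Agent.R937.JS.Defs

/-!
# Jannsen's conjecture and semisimplicity: proofs
-/

set_option autoImplicit false

namespace Pool.Agent.R937.JS

variable {Ω : Type} [Field Ω]

theorem IsLin.map_sub {A B : Type} [AddCommGroup A] [Module Ω A] [AddCommGroup B]
    [Module Ω B] {f : A → B} (h : IsLin Ω f) (x y : A) : f (x - y) = f x - f y := by
  obtain ⟨φ, hφ⟩ := h
  rw [hφ, hφ, hφ, _root_.map_sub]

theorem IsLin.map_add {A B : Type} [AddCommGroup A] [Module Ω A] [AddCommGroup B]
    [Module Ω B] {f : A → B} (h : IsLin Ω f) (x y : A) : f (x + y) = f x + f y := by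
  obtain ⟨φ, hφ⟩ := h
  rw [hφ, hφ, hφ, _root_.map_add]

theorem IsLin.map_smul {A B : Type} [AddCommGroup A] [Module Ω A] [AddCommGroup B]
    [Module Ω B] {f : A → B} (h : IsLin Ω f) (c : Ω) (x : A) : f (c • x) = c • f x := by
  obtain ⟨φ, hφ⟩ := h
  rw [hφ, hφ, _root_.map_smul]

theorem IsLin.map_zero {A B : Type} [AddCommGroup A] [Module Ω A] [AddCommGroup B]
    [Module Ω B] {f : A → B} (h : IsLin Ω f) : f 0 = 0 := by
  obtain ⟨φ, hφ⟩ := h
  rw [hφ, _root_.map_zero]

/-- The invariants. -/
def inv {T : Homology Ω} (hT : IsHomology T) (X : T.V) (i : ℕ) : Submodule Ω (T.H X i) where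
  carrier := {x | IsInvariant T x}
  zero_mem' := fun g => (hT.linear X i g).map_zero
  add_mem' := fun {x y} hx hy g => by rw [(hT.linear X i g).map_add, hx, hy]
  smul_mem' := fun c x hx g => by rw [(hT.linear X i g).map_smul, hx]

theorem invariant_of_algebraic {T : Homology Ω} (hT : IsHomology T) {X : T.V} {i : ℕ} {x : T.H X i}
    (hx : IsAlgebraic T x) : IsInvariant T x := by
  have h1 : Submodule.span Ω (Set.range (T.cl X i)) ≤ inv hT X i := by
    rw [Submodule.span_le]
    rintro _ ⟨z, rfl⟩
    exact hT.invariant X i z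
  exact h1 hx

theorem isUnipotent_of_invariant {T : Homology Ω} {X : T.V} {i : ℕ} {x : T.H X i}
    (hx : IsInvariant T x) : IsUnipotent T x := by
  refine .step x fun g => ?_
  rw [hx g, sub_self]
  exact .zero

/-- A finite-dimensional subspace of the span of classes. -/
theorem exists_finset {T : Homology Ω} (X : T.V) (i : ℕ) (W : Submodule Ω (T.H X i))
    [FiniteDimensional Ω W] (hW : ∀ w ∈ W, IsAlgebraic T w) :
    ∃ S : Finset (T.Z X i), W ≤ Submodule.span Ω (T.cl X i '' S) := by
  classical
  obtain ⟨s, hs⟩ : W.FG := Module.Finite.iff_fg.1 inferInstance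
  have key : ∀ w : T.H X i, IsAlgebraic T w → ∃ S : Finset (T.Z X i),
      w ∈ Submodule.span Ω (T.cl X i '' S) := by
    intro w hw
    refine Submodule.span_induction (p := fun w _ => ∃ S : Finset (T.Z X i),
      w ∈ Submodule.span Ω (T.cl X i '' S)) ?_ ?_ ?_ ?_ hw
    · rintro _ ⟨z, rfl⟩
      exact ⟨{z}, Submodule.subset_span ⟨z, by simp, rfl⟩⟩
    · exact ⟨∅, Submodule.zero_mem _⟩
    · rintro x y - - ⟨S, hS⟩ ⟨S', hS'⟩
      refine ⟨S ∪ S', Submodule.add_mem _ ?_ ?_⟩
      · refine Submodule.span_mono (Set.image_mono ?_) hS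
        exact Finset.coe_subset.2 Finset.subset_union_left
      · refine Submodule.span_mono (Set.image_mono ?_) hS'
        exact Finset.coe_subset.2 Finset.subset_union_right
    · rintro a x - ⟨S, hS⟩
      exact ⟨S, Submodule.smul_mem _ _ hS⟩
  choose! f hf using key
  refine ⟨s.biUnion f, ?_⟩
  rw [← hs, Submodule.span_le]
  intro w hw
  have h1 : w ∈ W := by
    rw [← hs]
    exact Submodule.subset_span hw
  refine Submodule.span_mono (Set.image_mono ?_) (hf w (hW w h1))
  exact Finset.coe_subset.2 (Finset.subset_biUnion_of_mem f hw)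

/-- The image of the algebraic elements. -/
theorem algebraic_map {T₀ T : Homology Ω} {P : T₀.V} {X : T.V} {m i : ℕ} {h : T₀.H P m → T.H X i}
    (hl : IsLin Ω h) (hc : ∀ z, IsAlgebraic T (h (T₀.cl P m z))) {y : T₀.H P m}
    (hy : IsAlgebraic T₀ y) : IsAlgebraic T (h y) := by
  obtain ⟨φ, hφ⟩ := hl
  have h1 : Submodule.span Ω (Set.range (T₀.cl P m)) ≤
      (Submodule.span Ω (Set.range (T.cl X i))).comap φ := by
    rw [Submodule.span_le]
    rintro _ ⟨z, rfl⟩
    have h2 := hc z
    rw [hφ] at h2
    exact h2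
  rw [hφ]
  exact h1 hy

/-- **The main step.** Suppose that the conjecture of Jannsen holds for `X` and for the complements of
closed subvarieties of dimension at most `i`. Then each element on which the Galois group acts
unipotently is invariant. -/
theorem semisimple_of_onto [CharZero Ω] {T : Homology Ω} (hT : IsHomology T) (X : T.V) (i : ℕ)
    (h : IsOntoOpen T X i) : IsSemisimple T X i := by
  classical
  obtain ⟨hX, hU⟩ := h
  have := hT.finite X i
  intro x hx
  induction hx with
  | zero => exact (inv hT X i).zero_mem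
  | step x _ ih =>
    let W : Submodule Ω (T.H X i) := Submodule.span Ω (Set.range fun g => T.act X i g x - x)
    have hWinv : W ≤ inv hT X i := by
      rw [Submodule.span_le]
      rintro _ ⟨g, rfl⟩
      exact ih g
    obtain ⟨S, hS⟩ := exists_finset X i W fun w hw => hX w (hWinv hw)
    obtain ⟨D, U, a, b, t, hD, hsm, hcl⟩ := hT.supports X i S
    obtain ⟨φ, hφ⟩ := t.b_equivariant.1
    obtain ⟨α, hα⟩ := t.a_equivariant.1
    have hb0 : ∀ w ∈ W, φ w = 0 := by
      intro w hw
      have h1 : Submodule.span Ω (T.cl X i '' S) ≤ LinearMap.ker φ := by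
        rw [Submodule.span_le]
        rintro _ ⟨z, hz, rfl⟩
        change φ (T.cl X i z) = 0
        rw [← hφ]
        exact (t.exact _).2 (hcl z hz)
      exact h1 (hS hw)
    -- the restriction is algebraic
    have hbx : IsAlgebraic T (φ x) := by
      refine hU D U a b t hD hsm _ fun g => ?_
      rw [← hφ, ← t.b_equivariant.2, hφ, hφ, ← sub_eq_zero, ← _root_.map_sub]
      exact hb0 _ (Submodule.subset_span ⟨g, rfl⟩)
    have hle : Submodule.span Ω (Set.range (T.cl U i)) ≤
        (Submodule.span Ω (Set.range (T.cl X i))).map φ := by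
      rw [Submodule.span_le]
      rintro _ ⟨z, rfl⟩
      obtain ⟨z', hz'⟩ := t.closure z
      exact ⟨_, Submodule.subset_span ⟨z', rfl⟩, by rw [← hφ, hz']⟩
    obtain ⟨z, hz, hzx⟩ := hle hbx
    obtain ⟨y, hy⟩ := (t.exact (x - z)).1 (by rw [hφ, _root_.map_sub, hzx, sub_self])
    have hx : x = z + a y := by
      rw [hy]
      abel
    have hzinv := invariant_of_algebraic hT (X := X) (i := i) hz
    obtain ⟨N, hN, hN1⟩ := hT.top D i hD
    have h2 : ∀ g ∈ N, T.act X i g x = x := by
      intro g hg
      rw [hx, (hT.linear X i g).map_add, hzinv g, ← t.a_equivariant.2, hN1 g hg]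
    -- the homomorphism
    have h3 : ∀ (g : T.G) (n : ℕ), T.act X i (g ^ n) x = x + (n : Ω) • (T.act X i g x - x) := by
      intro g n
      induction n with
      | zero => rw [pow_zero, hT.one, Nat.cast_zero, zero_smul, add_zero]
      | succ n ihn =>
        rw [pow_succ', hT.mul, ihn, (hT.linear X i g).map_add, (hT.linear X i g).map_smul, ih g g,
          Nat.cast_succ, add_smul, one_smul]
        abel
    intro g
    obtain ⟨n, hn, -, hgn⟩ := Subgroup.exists_pow_mem_of_index_ne_zero hN.index_ne_zero g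
    have h4 := h3 g n
    rw [h2 _ hgn] at h4
    have h5 : (n : Ω) • (T.act X i g x - x) = 0 := by
      have h6 : x + (n : Ω) • (T.act X i g x - x) = x + 0 := by rw [← h4, add_zero]
      exact add_left_cancel h6
    rcases smul_eq_zero.1 h5 with h6 | h6
    · exact absurd (Nat.cast_eq_zero.1 h6) hn.ne'
    · exact sub_eq_zero.1 h6

/-- The conjecture for all varieties over a field implies semisimplicity. -/
theorem semisimple [CharZero Ω] {T : Homology Ω} (hT : IsHomology T)
    (h : ∀ X i, IsOnto T X i) (X : T.V) (i : ℕ) : IsSemisimple T X i :=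
  semisimple_of_onto hT X i ⟨h X i, fun _ U _ _ _ _ _ => h U i⟩

section family

variable {K : Type} {finite : K → Prop} {T : K → Homology Ω} (hT : IsFamily K finite T)

include hT

/-- From smooth projective varieties to all varieties over a finite field. -/
theorem all_of_projective (h : TateSemisimple finite T) (k : K) (hk : finite k) (X : (T k).V)
    (i : ℕ) : IsOnto (T k) X i ∧ IsSemisimple (T k) X i := by
  obtain ⟨P, φ, hP, c⟩ := hT.cover k hk X i
  obtain ⟨h1, h2⟩ := h k hk P hP i
  constructor
  · intro x hx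
    obtain ⟨y, hy, rfl⟩ := c.onto x (isUnipotent_of_invariant hx)
    exact algebraic_map c.equivariant.1 c.cycles (h1 y (h2 y hy))
  · intro x hx g
    obtain ⟨y, hy, rfl⟩ := c.onto x hx
    rw [← c.equivariant.2, h2 y hy g]

/-- From finite fields to finitely generated fields. -/
theorem all_of_finite
    (h : ∀ k, finite k → ∀ (X : (T k).V) i, IsOnto (T k) X i ∧ IsSemisimple (T k) X i) :
    Jannsen T := by
  intro k X i
  obtain ⟨k₀, 𝒳, j, φ, hk₀, m⟩ := hT.model k X i
  obtain ⟨h1, h2⟩ := h k₀ hk₀ 𝒳 j
  intro x hx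
  obtain ⟨y, hy, rfl⟩ := m.onto x hx
  exact algebraic_map m.linear m.cycles (h1 y (h2 y hy))

/-- **The theorem.** -/
theorem main [CharZero Ω] : List.TFAE [Jannsen T, JannsenSemisimple T, JannsenSmooth finite T,
    TateSemisimple finite T] := by
  tfae_have 1 → 2 := fun h k X i => ⟨h k X i, semisimple (hT.homology k) (h k) X i⟩
  tfae_have 2 → 3 := fun h k _ U _ i => (h k U i).1
  tfae_have 3 → 4 := by
    intro h k hk P hP i
    have hsm := (hT.homology k).smooth_of_projective P hP
    exact ⟨h k hk P hsm i, semisimple_of_onto (hT.homology k) P i ⟨h k hk P hsm i,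
      fun D U _ _ _ _ hU => h k hk U (hU hsm) i⟩⟩
  tfae_have 4 → 1 := fun h => all_of_finite hT (all_of_projective hT h)
  tfae_finish

end family

end Pool.Agent.R937.JS
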